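import Mathlib

set_option autoImplicit false

/-! Algebra of pairs satisfying the two relations of Thompson's group `F`. -/

namespace Pool.Agent.H929Z.ThF

variable {G : Type*} [Group G]

/-- the two defining relations -/
def FRel (a b : G) : Prop :=
  Commute (a * b⁻¹) (a⁻¹ * b * a) ∧ Commute (a * b⁻¹) (a⁻¹ * a⁻¹ * b * a * a)

/-- a non-commuting pair satisfying the two defining relations -/
def FPair (a b : G) : Prop := FRel a b ∧ ¬ Commute a b

/-- the infinite generating sequence -/
def xs (a b : G) : ℕ → G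
  | 0 => a
  | (n + 1) => (a ^ n)⁻¹ * b * a ^ n

lemma xs_succ_succ (a b : G) (n : ℕ) : xs a b (n + 2) = a⁻¹ * xs a b (n + 1) * a := by
  simp only [xs, pow_succ]
  have : (a ^ n * a)⁻¹ = a⁻¹ * (a ^ n)⁻¹ := by group
  rw [this]; group

lemma xs_conj (a b : G) (n k : ℕ) : xs a b (n + k + 1) = (a ^ k)⁻¹ * xs a b (n + 1) * a ^ k := by
  simp only [xs, pow_add]; group

lemma step_of_comm {a b y : G} (h : Commute (a * b⁻¹) y) : y * b = b * (a⁻¹ * y * a) := by
  have h1 : a * b⁻¹ * y = y * (a * b⁻¹) := h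
  calc y * b = b * (a⁻¹ * (a * b⁻¹ * y) * b) := by group
    _ = b * (a⁻¹ * (y * (a * b⁻¹)) * b) := by rw [h1]
    _ = _ := by group

lemma xs_two_step {a b : G} (h : FRel a b) (i : ℕ) :
    xs a b (i + 3) = (xs a b (i + 1))⁻¹ * xs a b (i + 2) * xs a b (i + 1) := by
  have h1 := step_of_comm h.1
  have e1 : xs a b (i + 1) = (a ^ i)⁻¹ * b * a ^ i := rfl
  have e2 : xs a b (i + 2) = (a ^ i)⁻¹ * (a⁻¹ * b * a) * a ^ i := by
    simp only [xs, pow_succ']; group
  have e3 : xs a b (i + 3) = (a ^ i)⁻¹ * (a⁻¹ * (a⁻¹ * b * a) * a) * a ^ i := by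
    simp only [xs, pow_succ']; group
  have h2 : a⁻¹ * (a⁻¹ * b * a) * a = b⁻¹ * (a⁻¹ * b * a) * b := by
    rw [mul_assoc b⁻¹, h1]; group
  rw [e1, e2, e3, h2]; group

lemma comm_xs {a b : G} (h : FRel a b) (k : ℕ) : Commute (a * b⁻¹) (xs a b (k + 2)) := by
  induction k using Nat.strong_induction_on with
  | _ k ih =>
    match k, ih with
    | 0, _ =>
      have : xs a b (0 + 2) = a⁻¹ * b * a := by simp [xs]
      rw [this]; exact h.1
    | 1, _ =>
      have : xs a b (1 + 2) = a⁻¹ * a⁻¹ * b * a * a := by simp [xs, pow_succ, mul_assoc]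
      rw [this]; exact h.2
    | (k + 2), ih =>
      have e := xs_two_step h (k + 1)
      have e' : xs a b (k + 2 + 2) = (xs a b (k + 2))⁻¹ * xs a b (k + 1 + 2) * xs a b (k + 2) := e
      rw [e']
      exact ((ih k (by omega)).inv_right.mul_right (ih (k + 1) (by omega))).mul_right
        (ih k (by omega))

lemma xs_rel {a b : G} (h : FRel a b) {i j : ℕ} (hij : i < j) :
    xs a b j * xs a b i = xs a b i * xs a b (j + 1) := by
  rcases i with _ | i
  · obtain ⟨j, rfl⟩ : ∃ j', j = j' + 1 := ⟨j - 1, by omega⟩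
    rw [xs_succ_succ]; simp only [xs]; group
  · obtain ⟨k, rfl⟩ : ∃ k, j = k + 1 + i + 1 := ⟨j - i - 2, by omega⟩
    have h1 := step_of_comm (comm_xs h k)
    rw [← xs_succ_succ] at h1
    have e1 : xs a b (i + 1) = (a ^ i)⁻¹ * b * a ^ i := rfl
    have e2 := xs_conj a b (k + 1) i
    have e3 := xs_conj a b (k + 2) i
    have e3' : xs a b (k + 1 + i + 1 + 1) = (a ^ i)⁻¹ * xs a b (k + 2 + 1) * a ^ i := by
      rw [← e3]; congr 1; omega
    rw [e1, e2, e3']
    calc (a ^ i)⁻¹ * xs a b (k + 1 + 1) * a ^ i * ((a ^ i)⁻¹ * b * a ^ i)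
        = (a ^ i)⁻¹ * (xs a b (k + 2) * b) * a ^ i := by group
      _ = (a ^ i)⁻¹ * (b * xs a b (k + 1 + 2)) * a ^ i := by rw [h1]
      _ = _ := by group

/-! ### a small normal form procedure -/

def ins : ℕ → List ℕ → List ℕ
  | j, [] => [j]
  | j, i :: p => if i < j then i :: ins (j + 1) p else j :: i :: p

def srt : List ℕ → List ℕ
  | [] => []
  | j :: p => ins j (srt p)

def insneg : ℕ → List ℕ → List ℕ × List ℕ
  | j, [] => ([], [j])
  | j, i :: p =>
    if i = j then (p, []) else
      if i < j then (i :: (insneg (j + 1) p).1, (insneg (j + 1) p).2)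
      else ((i + 1) :: (insneg j p).1, (insneg j p).2)

def nf : List (ℕ × Bool) → List ℕ × List ℕ
  | [] => ([], [])
  | (i, true) :: w => (ins i (nf w).1, (nf w).2)
  | (i, false) :: w => ((insneg i (nf w).1).1, (nf w).2 ++ (insneg i (nf w).1).2)

def evp (X : ℕ → G) (p : List ℕ) : G := (p.map X).prod

def ev (X : ℕ → G) : List (ℕ × Bool) → G
  | [] => 1
  | (i, true) :: w => X i * ev X w
  | (i, false) :: w => (X i)⁻¹ * ev X w

section
variable {X : ℕ → G} (hX : ∀ i j, i < j → X j * X i = X i * X (j + 1))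
include hX

lemma evp_ins (j : ℕ) (p : List ℕ) : evp X (ins j p) = X j * evp X p := by
  induction p generalizing j with
  | nil => simp [ins, evp]
  | cons i p ih =>
    unfold ins
    split_ifs with h
    · have := ih (j + 1)
      simp only [evp, List.map_cons, List.prod_cons] at this ⊢
      rw [this, ← mul_assoc, ← hX i j h, mul_assoc]
    · simp [evp]

lemma evp_srt (p : List ℕ) : evp X (srt p) = evp X p := by
  induction p with
  | nil => rfl
  | cons j p ih => rw [srt, evp_ins hX, ih]; simp [evp]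

lemma evp_insneg (j : ℕ) (p : List ℕ) :
    evp X (insneg j p).1 * (evp X (insneg j p).2)⁻¹ = (X j)⁻¹ * evp X p := by
  induction p generalizing j with
  | nil => simp [insneg, evp]
  | cons i p ih =>
    unfold insneg
    split_ifs with h1 h2
    · subst h1; simp [evp]
    · have := ih (j + 1)
      simp only [evp, List.map_cons, List.prod_cons] at this ⊢
      rw [mul_assoc, this]
      have h3 := hX i j h2
      calc X i * ((X (j + 1))⁻¹ * (List.map X p).prod)
          = (X j)⁻¹ * (X j * X i) * (X (j + 1))⁻¹ * (List.map X p).prod := by group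
        _ = (X j)⁻¹ * (X i * X (j + 1)) * (X (j + 1))⁻¹ * (List.map X p).prod := by rw [h3]
        _ = _ := by group
    · have := ih j
      simp only [evp, List.map_cons, List.prod_cons] at this ⊢
      rw [mul_assoc, this]
      have h3 := hX j i (by omega)
      calc X (i + 1) * ((X j)⁻¹ * (List.map X p).prod)
          = (X j)⁻¹ * (X j * X (i + 1)) * (X j)⁻¹ * (List.map X p).prod := by group
        _ = (X j)⁻¹ * (X i * X j) * (X j)⁻¹ * (List.map X p).prod := by rw [h3]
        _ = _ := by group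

lemma ev_nf (w : List (ℕ × Bool)) : ev X w = evp X (nf w).1 * (evp X (nf w).2)⁻¹ := by
  induction w with
  | nil => simp [ev, nf, evp]
  | cons c w ih =>
    obtain ⟨i, e⟩ := c
    cases e
    · simp only [ev, nf]
      have h1 := evp_insneg hX i (nf w).1
      have h2 : evp X ((nf w).2 ++ (insneg i (nf w).1).2)
          = evp X (nf w).2 * evp X (insneg i (nf w).1).2 := by simp [evp]
      rw [h2, ih, mul_inv_rev, ← mul_assoc, ← mul_assoc, h1]
    · simp only [ev, nf]
      rw [evp_ins hX, ih, mul_assoc]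

lemma ev_eq_one (w : List (ℕ × Bool)) (h : srt (nf w).1 = srt (nf w).2) : ev X w = 1 := by
  rw [ev_nf hX, ← evp_srt hX (nf w).1, ← evp_srt hX (nf w).2, h, mul_inv_cancel]

end

/-- first generator of a copy of `F` inside the commutator subgroup -/
def uu (a b : G) : G := xs a b 1 * xs a b 1 * (xs a b 2)⁻¹ * (xs a b 1)⁻¹

/-- second generator of a copy of `F` inside the commutator subgroup -/
def vv (a b : G) : G :=
  xs a b 1 * xs a b 2 * xs a b 2 * (xs a b 3)⁻¹ * (xs a b 2)⁻¹ * (xs a b 1)⁻¹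

def winv (w : List (ℕ × Bool)) : List (ℕ × Bool) := (w.map fun c => (c.1, !c.2)).reverse

lemma ev_append (X : ℕ → G) (w w' : List (ℕ × Bool)) : ev X (w ++ w') = ev X w * ev X w' := by
  induction w with
  | nil => simp [ev]
  | cons c w ih =>
    obtain ⟨i, e⟩ := c
    cases e <;> simp [ev, ih, mul_assoc]

lemma ev_winv (X : ℕ → G) (w : List (ℕ × Bool)) : ev X (winv w) = (ev X w)⁻¹ := by
  induction w with
  | nil => simp [ev, winv]
  | cons c w ih =>
    obtain ⟨i, e⟩ := c
    have : winv ((i, e) :: w) = winv w ++ [(i, !e)] := by simp [winv]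
    rw [this, ev_append, ih]
    cases e <;> simp [ev]

def wcomm (p q : List (ℕ × Bool)) : List (ℕ × Bool) := p ++ q ++ winv p ++ winv q

lemma comm_of_ev {X : ℕ → G} (p q : List (ℕ × Bool)) (h : ev X (wcomm p q) = 1) :
    Commute (ev X p) (ev X q) := by
  simp only [wcomm, ev_append, ev_winv] at h
  have : ev X p * ev X q = ev X q * ev X p := by
    calc ev X p * ev X q = (ev X p * ev X q * (ev X p)⁻¹ * (ev X q)⁻¹) * (ev X q * ev X p) := by
          group
      _ = _ := by rw [h, one_mul]
  exact this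

def wu : List (ℕ × Bool) := [(1, true), (1, true), (2, false), (1, false)]
def wv : List (ℕ × Bool) := [(1, true), (2, true), (2, true), (3, false), (2, false), (1, false)]
def ww : List (ℕ × Bool) := [(0, true), (0, true), (1, false), (2, false), (1, false)]

lemma fpair_uv {a b : G} (h : FPair a b) : FPair (uu a b) (vv a b) := by
  have hX : ∀ i j, i < j → xs a b j * xs a b i = xs a b i * xs a b (j + 1) :=
    fun i j hij => xs_rel h.1 hij
  have eu : ev (xs a b) wu = uu a b := by simp [ev, wu, uu, mul_assoc]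
  have ev' : ev (xs a b) wv = vv a b := by simp [ev, wv, vv, mul_assoc]
  refine ⟨⟨?_, ?_⟩, ?_⟩
  · have := comm_of_ev (wu ++ winv wv) (winv wu ++ wv ++ wu) (ev_eq_one hX _ (by decide))
    simpa only [ev_append, ev_winv, eu, ev'] using this
  · have := comm_of_ev (wu ++ winv wv) (winv wu ++ winv wu ++ wv ++ wu ++ wu)
      (ev_eq_one hX _ (by decide))
    simpa only [ev_append, ev_winv, eu, ev'] using this
  · intro hc
    apply h.2
    have h1 := ev_eq_one hX (ww ++ wcomm wu wv ++ winv ww ++ winv (wcomm [(0, true)] [(1, true)]))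
      (by decide)
    have h2 : ev (xs a b) (wcomm wu wv) = 1 := by
      simp only [wcomm, ev_append, ev_winv, eu, ev']
      rw [hc.eq]; group
    rw [ev_append, ev_append, ev_append, h2, ev_winv, ev_winv] at h1
    have h3 : ev (xs a b) (wcomm [(0, true)] [(1, true)]) = 1 := by
      simpa using h1
    have h4 := comm_of_ev _ _ h3
    simpa [ev, xs] using h4

lemma uu_of_comm {a b : G} (h : Commute a b) : uu a b = 1 := by
  have e : ∀ n, xs a b (n + 1) = b := by
    intro n
    simp only [xs]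
    rw [mul_assoc, ← (h.pow_left n).eq]; group
  simp only [uu, e 0, e 1]; group

lemma vv_of_comm {a b : G} (h : Commute a b) : vv a b = 1 := by
  have e : ∀ n, xs a b (n + 1) = b := by
    intro n
    simp only [xs]
    rw [mul_assoc, ← (h.pow_left n).eq]; group
  simp only [vv, e 0, e 1, e 2]; group

lemma map_xs {Γ : Type*} [Group Γ] (φ : G →* Γ) (a b : G) (n : ℕ) :
    φ (xs a b n) = xs (φ a) (φ b) n := by
  cases n <;> simp [xs]

lemma map_uu {Γ : Type*} [Group Γ] (φ : G →* Γ) (a b : G) : φ (uu a b) = uu (φ a) (φ b) := by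
  simp [uu, map_xs]

lemma map_vv {Γ : Type*} [Group Γ] (φ : G →* Γ) (a b : G) : φ (vv a b) = vv (φ a) (φ b) := by
  simp [vv, map_xs]

lemma comm_of_xs_eq {a b : G} (k : ℕ) (h : xs a b (k + 2) = xs a b (k + 1)) : Commute a b := by
  have e2 : xs a b (k + 2) = (a ^ k)⁻¹ * (a⁻¹ * b * a) * a ^ k := by
    simp only [xs, pow_succ']; group
  have e1 : xs a b (k + 1) = (a ^ k)⁻¹ * b * a ^ k := rfl
  rw [e1, e2] at h
  have h1 : a⁻¹ * b * a = b := mul_left_cancel (mul_right_cancel h)
  calc a * b = a * (a⁻¹ * b * a) := by rw [h1]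
    _ = b * a := by group

lemma fpair_shift {a b : G} (h : FPair a b) (k : ℕ) :
    FPair (xs a b (k + 1)) (xs a b (k + 2)) := by
  have r := fun i j (hij : i < j) => xs_rel h.1 hij
  have c : ∀ i j, i < j → (xs a b i)⁻¹ * xs a b j * xs a b i = xs a b (j + 1) := by
    intro i j hij
    rw [mul_assoc, r i j hij]; group
  have key : ∀ j, k + 2 < j → Commute (xs a b (k + 1) * (xs a b (k + 2))⁻¹) (xs a b j) := by
    intro j hj
    have h1 := r (k + 1) j (by omega)
    have h2 := r (k + 2) j hj
    show _ * _ = _ * _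
    calc xs a b (k + 1) * (xs a b (k + 2))⁻¹ * xs a b j
        = xs a b (k + 1) * (xs a b (k + 2))⁻¹ * (xs a b j * xs a b (k + 2)) * (xs a b (k + 2))⁻¹ := by
          group
      _ = xs a b (k + 1) * xs a b (j + 1) * (xs a b (k + 2))⁻¹ := by rw [h2]; group
      _ = _ := by rw [← h1]; group
  refine ⟨⟨?_, ?_⟩, ?_⟩
  · rw [c (k + 1) (k + 2) (by omega)]; exact key _ (by omega)
  · have : (xs a b (k + 1))⁻¹ * (xs a b (k + 1))⁻¹ * xs a b (k + 2) * xs a b (k + 1) * xs a b (k + 1)
        = (xs a b (k + 1))⁻¹ * ((xs a b (k + 1))⁻¹ * xs a b (k + 2) * xs a b (k + 1)) *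
          xs a b (k + 1) := by group
    rw [this, c (k + 1) (k + 2) (by omega), c (k + 1) (k + 2 + 1) (by omega)]
    exact key _ (by omega)
  · intro hc
    apply h.2
    have h1 := r (k + 1) (k + 2) (by omega)
    rw [← hc.eq] at h1
    exact comm_of_xs_eq (k + 1) (mul_left_cancel h1).symm

lemma not_fpair_of_finite [Finite G] (a b : G) : ¬ FPair a b := by
  intro h
  apply h.2
  obtain ⟨n, hn, hna⟩ : ∃ n, 0 < n ∧ a ^ n = 1 := ⟨orderOf a, orderOf_pos a, pow_orderOf_eq_one a⟩
  have e1 : xs a b (n + 1) = xs a b 1 := by simp [xs, hna]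
  have e2 : xs a b (n + 1 + 1) = xs a b 2 := by simp [xs, pow_succ, hna]
  have h1 := xs_rel h.1 (i := 1) (j := n + 1) (by omega)
  rw [e1, e2] at h1
  exact comm_of_xs_eq 0 (mul_left_cancel h1).symm

lemma FPair.of_injective {Γ : Type*} [Group Γ] (φ : G →* Γ) (hφ : Function.Injective φ)
    {a b : G} : FPair (φ a) (φ b) ↔ FPair a b := by
  have hc : ∀ x y : G, Commute (φ x) (φ y) ↔ Commute x y := by
    intro x y
    constructor
    · intro h
      apply hφ
      rw [map_mul, map_mul]; exact h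
    · intro h; exact h.map φ
  unfold FPair FRel
  rw [← hc, ← hc, ← hc]
  simp only [map_mul, map_inv]

end Pool.Agent.H929Z.ThF
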