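import Pool.Agent.H929Z.ThF.Alg

set_option autoImplicit false

/-! Groups with a section generated by an `FPair`; the complementary class is closed under the
operations generating the elementary amenable groups. -/

namespace Pool.Agent.H929Z.ThF

abbrev F2 := FreeGroup (Fin 2)

def gx : F2 := FreeGroup.of 0
def gy : F2 := FreeGroup.of 1

/-- the homomorphism from the free group with given values -/
def hom2 {G : Type*} [Group G] (a b : G) : F2 →* G := FreeGroup.lift ![a, b]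

@[simp] lemma hom2_gx {G : Type*} [Group G] (a b : G) : hom2 a b gx = a := by simp [hom2, gx]
@[simp] lemma hom2_gy {G : Type*} [Group G] (a b : G) : hom2 a b gy = b := by simp [hom2, gy]

lemma hom2_ext {G : Type*} [Group G] {f g : F2 →* G} (h1 : f gx = g gx) (h2 : f gy = g gy) :
    f = g := by
  ext i
  fin_cases i
  · exact h1
  · exact h2

/-- `G` has a section generated by a non-commuting pair satisfying the relations of `F` -/
def Bad (G : Type) [Group G] : Prop :=
  ∃ (Γ : Type) (_ : Group Γ) (ψ : F2 →* G) (χ : F2 →* Γ), ψ.ker ≤ χ.ker ∧ FPair (χ gx) (χ gy)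

lemma bad_of_hom {G Γ : Type} [Group G] [Group Γ] (φ : G →* Γ) (a b : G)
    (h : FPair (φ a) (φ b)) : Bad G := by
  refine ⟨Γ, inferInstance, hom2 a b, φ.comp (hom2 a b), ?_, by simpa using h⟩
  intro w hw
  rw [MonoidHom.mem_ker] at hw ⊢
  simp [hw]

lemma Bad.of_injective {G G' : Type} [Group G] [Group G'] (i : G →* G')
    (hi : Function.Injective i) (h : Bad G) : Bad G' := by
  obtain ⟨Γ, _, ψ, χ, hk, hp⟩ := h
  refine ⟨Γ, inferInstance, i.comp ψ, χ, ?_, hp⟩
  intro w hw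
  apply hk
  rw [MonoidHom.mem_ker] at hw ⊢
  apply hi
  simpa using hw

lemma Bad.of_surjective {G G' : Type} [Group G] [Group G'] (p : G →* G')
    (hp : Function.Surjective p) (h : Bad G') : Bad G := by
  obtain ⟨Γ, _, ψ, χ, hk, hq⟩ := h
  obtain ⟨a, ha⟩ := hp (ψ gx)
  obtain ⟨b, hb⟩ := hp (ψ gy)
  have e : p.comp (hom2 a b) = ψ := hom2_ext (by simpa using ha) (by simpa using hb)
  refine ⟨Γ, inferInstance, hom2 a b, χ, ?_, hq⟩
  intro w hw
  apply hk
  rw [MonoidHom.mem_ker] at hw ⊢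
  rw [← e]; simp [hw]

lemma not_bad_of_comm (G : Type) [CommGroup G] : ¬ Bad G := by
  rintro ⟨Γ, _, ψ, χ, hk, hq⟩
  apply hq.2
  have h1 : gx * gy * gx⁻¹ * gy⁻¹ ∈ ψ.ker := by
    rw [MonoidHom.mem_ker]
    simp only [map_mul, map_inv]
    rw [mul_comm (ψ gx) (ψ gy)]; group
  have h2 := hk h1
  rw [MonoidHom.mem_ker] at h2
  simp only [map_mul, map_inv] at h2
  calc χ gx * χ gy = (χ gx * χ gy * (χ gx)⁻¹ * (χ gy)⁻¹) * (χ gy * χ gx) := by group
    _ = _ := by rw [h2, one_mul]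

lemma not_bad_of_finite (G : Type) [Group G] [Finite G] : ¬ Bad G := by
  rintro ⟨Γ, _, ψ, χ, hk, hq⟩
  have hfin : Finite (F2 ⧸ ψ.ker) :=
    Finite.of_injective _ (QuotientGroup.kerLift_injective ψ)
  have hfin2 : Finite (F2 ⧸ χ.ker) :=
    Finite.of_surjective (Subgroup.quotientMapOfLE hk) (by
      intro z
      obtain ⟨w, rfl⟩ := QuotientGroup.mk_surjective z
      exact ⟨(w : F2 ⧸ ψ.ker), rfl⟩)
  have := (FPair.of_injective (QuotientGroup.kerLift χ) (QuotientGroup.kerLift_injective χ)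
    (a := (gx : F2 ⧸ χ.ker)) (b := (gy : F2 ⧸ χ.ker))).1 (by simpa using hq)
  exact not_fpair_of_finite _ _ this

lemma Bad.ext {G : Type} [Group G] (N : Subgroup G) [N.Normal] (h : Bad G) :
    Bad N ∨ Bad (G ⧸ N) := by
  obtain ⟨Γ, _, ψ, χ, hk, hq⟩ := h
  let N' : Subgroup F2 := N.comap ψ
  let M : Subgroup F2 := χ.ker ⊔ N'
  have : N'.Normal := inferInstance
  have : M.Normal := inferInstance
  let q : F2 →* F2 ⧸ M := QuotientGroup.mk' M
  have hrel : ∀ x y : F2, Commute (χ x) (χ y) → Commute (q x) (q y) := by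
    intro x y hxy
    have h1 : x * y * x⁻¹ * y⁻¹ ∈ χ.ker := by
      rw [MonoidHom.mem_ker]
      simp only [map_mul, map_inv]
      rw [hxy.eq]; group
    have h2 : q (x * y * x⁻¹ * y⁻¹) = 1 :=
      (QuotientGroup.eq_one_iff _).2 ((le_sup_left : χ.ker ≤ M) h1)
    simp only [map_mul, map_inv] at h2
    calc q x * q y = (q x * q y * (q x)⁻¹ * (q y)⁻¹) * (q y * q x) := by group
      _ = _ := by rw [h2, one_mul]
  by_cases hc : Commute (q gx) (q gy)
  · left
    have hu : uu gx gy ∈ M := by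
      have : q (uu gx gy) = 1 := by rw [map_uu]; exact uu_of_comm hc
      exact (QuotientGroup.eq_one_iff _).1 this
    have hv : vv gx gy ∈ M := by
      have : q (vv gx gy) = 1 := by rw [map_vv]; exact vv_of_comm hc
      exact (QuotientGroup.eq_one_iff _).1 this
    have dec : ∀ z ∈ M, ∃ n ∈ N', χ n = χ z := by
      intro z hz
      have hz' : z ∈ ((χ.ker ⊔ N' : Subgroup F2) : Set F2) := hz
      rw [Subgroup.mul_normal] at hz'
      obtain ⟨m, hm, n, hn, rfl⟩ := hz'
      refine ⟨n, hn, ?_⟩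
      have hm' : χ m = 1 := hm
      simp [hm']
    obtain ⟨n1, hn1, e1⟩ := dec _ hu
    obtain ⟨n2, hn2, e2⟩ := dec _ hv
    refine ⟨Γ, inferInstance, hom2 (⟨ψ n1, hn1⟩ : N) ⟨ψ n2, hn2⟩, χ.comp (hom2 n1 n2), ?_, ?_⟩
    · intro w hw
      have e : N.subtype.comp (hom2 (⟨ψ n1, hn1⟩ : N) ⟨ψ n2, hn2⟩) = ψ.comp (hom2 n1 n2) :=
        hom2_ext (by simp) (by simp)
      rw [MonoidHom.mem_ker] at hw ⊢
      have h1 : ψ (hom2 n1 n2 w) = 1 := by
        have := DFunLike.congr_fun e w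
        simp only [MonoidHom.comp_apply, hw, map_one] at this
        exact this.symm
      exact hk h1
    · simp only [MonoidHom.comp_apply, hom2_gx, hom2_gy, e1, e2, map_uu, map_vv]
      exact fpair_uv hq
  · right
    refine ⟨F2 ⧸ M, inferInstance, (QuotientGroup.mk' N).comp ψ, q, ?_, ⟨?_, ?_⟩, hc⟩
    · intro w hw
      rw [MonoidHom.mem_ker] at hw ⊢
      have h1 : ψ w ∈ N := (QuotientGroup.eq_one_iff _).1 hw
      exact (QuotientGroup.eq_one_iff _).2 ((le_sup_right : N' ≤ M) h1)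
    · have := hrel (gx * gy⁻¹) (gx⁻¹ * gy * gx) (by simpa only [map_mul, map_inv] using hq.1.1)
      simpa only [map_mul, map_inv] using this
    · have := hrel (gx * gy⁻¹) (gx⁻¹ * gx⁻¹ * gy * gx * gx)
        (by simpa only [map_mul, map_inv] using hq.1.2)
      simpa only [map_mul, map_inv] using this

lemma Bad.directed {G : Type} [Group G] {ι : Type} (K : ι → Subgroup G)
    (hd : Directed (· ≤ ·) K) (ht : (⨆ i, K i) = ⊤) (h : Bad G) : ∃ i, Bad (K i) := by
  rcases isEmpty_or_nonempty ι with hι | hι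
  · exfalso
    rw [iSup_of_empty] at ht
    have : Subsingleton G := by
      constructor
      intro a b
      have ha : a ∈ (⊥ : Subgroup G) := by rw [ht]; trivial
      have hb : b ∈ (⊥ : Subgroup G) := by rw [ht]; trivial
      rw [Subgroup.mem_bot] at ha hb
      rw [ha, hb]
    exact not_bad_of_finite G h
  · obtain ⟨Γ, _, ψ, χ, hk, hq⟩ := h
    have h1 : ψ gx ∈ ⨆ i, K i := by rw [ht]; trivial
    have h2 : ψ gy ∈ ⨆ i, K i := by rw [ht]; trivial
    rw [Subgroup.mem_iSup_of_directed hd] at h1 h2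
    obtain ⟨i, hi⟩ := h1
    obtain ⟨j, hj⟩ := h2
    obtain ⟨k, hik, hjk⟩ := hd i j
    refine ⟨k, Γ, inferInstance, hom2 (⟨ψ gx, hik hi⟩ : K k) ⟨ψ gy, hjk hj⟩, χ, ?_, hq⟩
    intro w hw
    have e : (K k).subtype.comp (hom2 (⟨ψ gx, hik hi⟩ : K k) ⟨ψ gy, hjk hj⟩) = ψ :=
      hom2_ext (by simp) (by simp)
    apply hk
    rw [MonoidHom.mem_ker] at hw ⊢
    rw [← e]; simp [hw]

end Pool.Agent.H929Z.ThF
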