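import Pool.Agent.H929Z.ThF.Bad

set_option autoImplicit false

/-! The action on the real line, and the two-chain argument. -/

namespace Pool.Agent.H929Z.ThF

abbrev Aut := ℝ ≃o ℝ

lemma aut_mul (f g : Aut) (t : ℝ) : (f * g) t = f (g t) := rfl

lemma aut_inv_apply (f : Aut) (t : ℝ) : f⁻¹ (f t) = t := by
  rw [← aut_mul, inv_mul_cancel]; rfl

lemma aut_apply_inv (f : Aut) (t : ℝ) : f (f⁻¹ t) = t := by
  rw [← aut_mul, mul_inv_cancel]; rfl

lemma commute_of_supp {f g : Aut} {c : ℝ} (hf : ∀ t, c ≤ t → f t = t)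
    (hg : ∀ t, t ≤ c → g t = t) : Commute f g := by
  show f * g = g * f
  ext t
  rw [aut_mul, aut_mul]
  rcases le_total t c with h | h
  · have h1 : f t ≤ c := by
      have := f.monotone h
      rwa [hf c le_rfl] at this
    rw [hg t h, hg _ h1]
  · have h1 : c ≤ g t := by
      have := g.monotone h
      rwa [hg c le_rfl] at this
    rw [hf t h, hf _ h1]

lemma fix_inv {f : Aut} {t : ℝ} (h : f t = t) : f⁻¹ t = t := by
  conv_lhs => rw [← h]
  exact aut_inv_apply f t

/-- two-chain lemma -/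
lemma frel_chain {f g : Aut} {c d : ℝ} (hf : ∀ t, c ≤ t → f t = t) (hg : ∀ t, t ≤ d → g t = t)
    (h1 : c ≤ g (f d)) (h2 : c ≤ g c) : FRel (f⁻¹ * g⁻¹) g⁻¹ := by
  have hf' : ∀ t, c ≤ t → (f⁻¹ * g⁻¹ * g⁻¹⁻¹) t = t := by
    intro t ht
    have : f⁻¹ * g⁻¹ * g⁻¹⁻¹ = f⁻¹ := by group
    rw [this]; exact fix_inv (hf t ht)
  have conj : ∀ (k : Aut), c ≤ k⁻¹ d → ∀ t, t ≤ c → (k⁻¹ * g⁻¹ * k) t = t := by
    intro k hk t ht
    have h3 : k t ≤ d := by
      have := k.monotone (ht.trans hk)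
      rwa [aut_apply_inv] at this
    rw [aut_mul, aut_mul, fix_inv (hg _ h3), aut_inv_apply]
  have e : (f⁻¹ * g⁻¹)⁻¹ = g * f := by group
  constructor
  · refine commute_of_supp hf' (conj _ ?_)
    rw [e]; exact h1
  · refine commute_of_supp hf' ?_
    have e2 : (f⁻¹ * g⁻¹)⁻¹ * (f⁻¹ * g⁻¹)⁻¹ * g⁻¹ * (f⁻¹ * g⁻¹) * (f⁻¹ * g⁻¹)
        = ((f⁻¹ * g⁻¹) * (f⁻¹ * g⁻¹))⁻¹ * g⁻¹ * ((f⁻¹ * g⁻¹) * (f⁻¹ * g⁻¹)) := by group
    rw [e2]
    refine conj _ ?_
    rw [mul_inv_rev, e, aut_mul]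
    have h3 : (g * f) c ≤ (g * f) ((g * f) d) := (g * f).monotone h1
    refine le_trans ?_ h3
    rw [aut_mul, hf c le_rfl]; exact h2

/-- translation by `-1` -/
noncomputable def TA : Aut := OrderIso.addRight (-1 : ℝ)

lemma TA_apply (t : ℝ) : TA t = t - 1 := by simp [TA, sub_eq_add_neg]

noncomputable def bfun (t : ℝ) : ℝ := max (t - 1) (min t (t / 2))

lemma bfun_strictMono : StrictMono bfun := by
  intro s t h
  unfold bfun
  apply max_lt_max (by linarith)
  exact min_lt_min h (by linarith)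

lemma bfun_surj : Function.Surjective bfun := by
  intro y
  rcases le_total y 0 with h | h
  · refine ⟨y, ?_⟩
    unfold bfun
    rw [min_eq_left (by linarith), max_eq_right (by linarith)]
  · rcases le_total y 1 with h' | h'
    · refine ⟨2 * y, ?_⟩
      unfold bfun
      rw [min_eq_right (by linarith), max_eq_right (by linarith)]; ring
    · refine ⟨y + 1, ?_⟩
      unfold bfun
      rw [min_eq_right (by linarith), max_eq_left (by linarith)]; ring

noncomputable def TB : Aut := bfun_strictMono.orderIsoOfSurjective bfun bfun_surj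

lemma TB_apply (t : ℝ) : TB t = bfun t := rfl

lemma TB_low {t : ℝ} (h : t ≤ 0) : TB t = t := by
  rw [TB_apply]; unfold bfun
  rw [min_eq_left (by linarith), max_eq_right (by linarith)]

lemma TB_high {t : ℝ} (h : 2 ≤ t) : TB t = t - 1 := by
  rw [TB_apply]; unfold bfun
  rw [min_eq_right (by linarith), max_eq_left (by linarith)]

lemma TA_inv (t : ℝ) : TA⁻¹ t = t + 1 := by
  have := aut_inv_apply TA (t + 1)
  rwa [TA_apply, add_sub_cancel_right] at this

lemma TB_inv_high {t : ℝ} (h : 1 ≤ t) : TB⁻¹ t = t + 1 := by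
  have := aut_inv_apply TB (t + 1)
  rwa [TB_high (by linarith), add_sub_cancel_right] at this

lemma fpair_T : FPair TA TB := by
  have h := frel_chain (f := TB * TA⁻¹) (g := TB⁻¹) (c := 1) (d := 0) ?_ ?_ ?_ ?_
  · have e : (TB * TA⁻¹)⁻¹ * TB⁻¹⁻¹ = TA * TB⁻¹ * TB := by group
    rw [e, inv_inv, inv_mul_cancel_right] at h
    refine ⟨h, fun hc => ?_⟩
    have h1 : (TA * TB) 2 = (TB * TA) 2 := by rw [hc.eq]
    rw [aut_mul, aut_mul, TB_high le_rfl, TA_apply, TA_apply, TB_apply] at h1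
    unfold bfun at h1
    rw [min_eq_right (by norm_num), max_eq_right (by norm_num)] at h1
    norm_num at h1
  · intro t ht
    rw [aut_mul, TA_inv, TB_high (by linarith)]; ring
  · intro t ht
    exact fix_inv (TB_low ht)
  · rw [aut_mul, aut_inv_apply, TA_inv]; norm_num
  · rw [TB_inv_high le_rfl]; norm_num

/-- germs at both ends are integer translations -/
def Germ (f : Aut) (m n : ℤ) : Prop :=
  (∃ T : ℝ, ∀ t, t ≤ T → f t = t + m) ∧ ∃ T : ℝ, ∀ t, T ≤ t → f t = t + n

lemma Germ.mul {f g : Aut} {m n m' n' : ℤ} (hf : Germ f m n) (hg : Germ g m' n') :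
    Germ (f * g) (m + m') (n + n') := by
  obtain ⟨⟨T1, h1⟩, T2, h2⟩ := hf
  obtain ⟨⟨S1, k1⟩, S2, k2⟩ := hg
  refine ⟨⟨min S1 (T1 - m'), fun t ht => ?_⟩, max S2 (T2 - n'), fun t ht => ?_⟩
  · have a1 := ht.trans (min_le_left _ _)
    have a2 := ht.trans (min_le_right _ _)
    rw [aut_mul, k1 t a1, h1 _ (by linarith)]; push_cast; ring
  · have a1 := (le_max_left _ _).trans ht
    have a2 := (le_max_right _ _).trans ht
    rw [aut_mul, k2 t a1, h2 _ (by linarith)]; push_cast; ring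

lemma Germ.inv {f : Aut} {m n : ℤ} (hf : Germ f m n) : Germ f⁻¹ (-m) (-n) := by
  obtain ⟨⟨T1, h1⟩, T2, h2⟩ := hf
  refine ⟨⟨T1 + m, fun t ht => ?_⟩, T2 + n, fun t ht => ?_⟩
  · have := aut_inv_apply f (t - m)
    rw [h1 _ (by linarith), sub_add_cancel] at this
    rw [this]; push_cast; ring
  · have := aut_inv_apply f (t - n)
    rw [h2 _ (by linarith), sub_add_cancel] at this
    rw [this]; push_cast; ring

lemma germ_one : Germ 1 0 0 := ⟨⟨0, fun t _ => by simp⟩, 0, fun t _ => by simp⟩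

lemma germ_TA : Germ TA (-1) (-1) :=
  ⟨⟨0, fun t _ => by rw [TA_apply]; push_cast; ring⟩, 0, fun t _ => by
    rw [TA_apply]; push_cast; ring⟩

lemma germ_TB : Germ TB 0 (-1) :=
  ⟨⟨0, fun t ht => by rw [TB_low ht]; simp⟩, 2, fun t ht => by rw [TB_high ht]; push_cast; ring⟩

lemma pow_reach {f : Aut} {T : ℝ} (hf : ∀ t, t ≤ T → f t = t + 1) (t : ℝ) :
    ∃ m : ℕ, T ≤ (f ^ m) t := by
  have key : ∀ m : ℕ, T ≤ (f ^ m) t ∨ (f ^ m) t = t + m ∨ ∃ k : ℕ, T ≤ (f ^ k) t := by
    intro m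
    induction m with
    | zero => right; left; simp
    | succ m ih =>
      rcases ih with h | h | h
      · exact Or.inr (Or.inr ⟨m, h⟩)
      · rcases le_total T ((f ^ m) t) with h' | h'
        · exact Or.inr (Or.inr ⟨m, h'⟩)
        · right; left
          rw [pow_succ', aut_mul, hf _ h', h]; push_cast; ring
      · exact Or.inr (Or.inr h)
  obtain ⟨m, hm⟩ := exists_nat_ge (T - t)
  rcases key m with h | h | h
  · exact ⟨m, h⟩
  · exact ⟨m, by rw [h]; linarith⟩
  · exact h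

lemma pow_high {g : Aut} {T : ℝ} (hg : ∀ t, T ≤ t → g t = t + 1) (n : ℕ) (t : ℝ) (ht : T ≤ t) :
    (g ^ n) t = t + n := by
  induction n with
  | zero => simp
  | succ n ih =>
    have : (0 : ℝ) ≤ n := Nat.cast_nonneg n
    rw [pow_succ', aut_mul, ih, hg _ (by linarith)]; push_cast; ring

lemma pow_fix {g : Aut} {t : ℝ} (h : g t = t) (n : ℕ) : (g ^ n) t = t := by
  induction n with
  | zero => simp
  | succ n ih => rw [pow_succ', aut_mul, ih, h]

/-- a group acting with independent germs and an unbounded orbit is bad -/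
lemma bad_of_unbounded {H : Type} [Group H] (π : H →* Aut) (h1 h2 : H)
    {T1 : ℝ} (hlow : ∀ t, t ≤ T1 → π h1 t = t + 1) {c : ℝ} (hc : ∀ t, c ≤ t → π h1 t = t)
    (g2 : Germ (π h2) 0 1) (hunb : ∀ s : ℝ, ∃ h : H, s ≤ π h T1) : Bad H := by
  obtain ⟨⟨d, hd⟩, T2, hT2⟩ := g2
  simp only [Int.cast_zero, add_zero, Int.cast_one] at hd hT2
  obtain ⟨h, hh⟩ := hunb T2
  obtain ⟨m, hm⟩ := pow_reach hlow ((π h)⁻¹ d)
  obtain ⟨n0, hn0⟩ := exists_nat_ge (max (π h c) T2 - T2)
  set n := n0 + 1 with hn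
  set f : H := h * h1 ^ m * h⁻¹ with hf
  set g : H := h2 ^ n with hg
  have hπf : ∀ t, π f t = π h ((π h1 ^ m) ((π h)⁻¹ t)) := by
    intro t; rw [hf, map_mul, map_mul, map_pow, map_inv]; rfl
  have hπg : π g = π h2 ^ n := by rw [hg, map_pow]
  have hfd : T2 ≤ π f d := by
    rw [hπf]; exact hh.trans ((π h).monotone hm)
  have hgs : ∀ s, T2 ≤ s → π g s = s + n := fun s hs => by rw [hπg]; exact pow_high hT2 n s hs
  have hnR : (n : ℝ) = n0 + 1 := by rw [hn]; push_cast; ring
  have hn0' : (0 : ℝ) ≤ n0 := Nat.cast_nonneg n0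
  have hgd : ∀ t, t ≤ d → π g t = t := fun t ht => by rw [hπg]; exact pow_fix (hd t ht) n
  refine bad_of_hom π (f⁻¹ * g⁻¹) g⁻¹ ?_
  simp only [map_mul, map_inv]
  refine ⟨frel_chain (c := max (π h c) T2) (d := d) ?_ hgd ?_ ?_, ?_⟩
  · intro t ht
    have a1 : c ≤ (π h)⁻¹ t := by
      have := (π h)⁻¹.monotone ((le_max_left _ _).trans ht)
      rwa [aut_inv_apply] at this
    rw [hπf, pow_fix (hc _ a1), aut_apply_inv]
  · rw [hgs _ hfd]; linarith
  · rw [hgs _ (le_max_right _ _)]; linarith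
  · intro hcm
    have h3 : Commute (π f) (π g) := by
      have h4 : Commute ((π f)⁻¹ * (π g)⁻¹ * (π g)) (π g)⁻¹ :=
        hcm.mul_left (Commute.refl (π g)).inv_right
      rw [inv_mul_cancel_right] at h4
      simpa using h4
    have h5 : (π f * π g) d = (π g * π f) d := by rw [h3.eq]
    rw [aut_mul, aut_mul, hgd d le_rfl, hgs _ hfd] at h5
    linarith

lemma TA_pow (k : ℕ) (t : ℝ) : (TA ^ k) t = t - k := by
  induction k with
  | zero => simp
  | succ k ih => rw [pow_succ', aut_mul, ih, TA_apply]; push_cast; ring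

lemma xs_fix (k : ℕ) {t : ℝ} (ht : t ≤ k) : xs TA TB (k + 1) t = t := by
  simp only [xs]
  rw [aut_mul, aut_mul, TB_low (by rw [TA_pow]; linarith), aut_inv_apply]

/-- Main theorem: in a group generated by `a, b` with the action and the two germ
homomorphisms, every maximal subgroup is bad. -/
theorem bad_of_coatom {G : Type} [Group G] (a b : G) (hrel : FRel a b)
    (π : G →* Aut) (ha : π a = TA) (hb : π b = TB)
    (α β : G →* Multiplicative ℤ)
    (hαa : α a = Multiplicative.ofAdd (-1)) (hαb : α b = Multiplicative.ofAdd 0)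
    (hβa : β a = Multiplicative.ofAdd (-1)) (hβb : β b = Multiplicative.ofAdd (-1))
    (hgerm : ∀ g, Germ (π g) (α g).toAdd (β g).toAdd)
    (H : Subgroup G) (hH : IsCoatom H) : Bad H := by
  have hp : FPair a b := by
    refine ⟨hrel, fun hc => fpair_T.2 ?_⟩
    rw [← ha, ← hb]; exact hc.map π
  let D : Subgroup G := α.ker ⊓ β.ker
  have : D.Normal := inferInstance
  by_cases hD : D ≤ H
  · have hu : uu a b ∈ D := by
      constructor
      · show α _ = 1
        rw [map_uu]; exact uu_of_comm (Commute.all _ _)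
      · show β _ = 1
        rw [map_uu]; exact uu_of_comm (Commute.all _ _)
    have hv : vv a b ∈ D := by
      constructor
      · show α _ = 1
        rw [map_vv]; exact vv_of_comm (Commute.all _ _)
      · show β _ = 1
        rw [map_vv]; exact vv_of_comm (Commute.all _ _)
    exact bad_of_hom H.subtype ⟨_, hD hu⟩ ⟨_, hD hv⟩ (fpair_uv hp)
  · have htop : H ⊔ D = ⊤ := hH.2 _ (left_lt_sup.2 hD)
    have dec : ∀ z : G, ∃ h ∈ H, α h = α z ∧ β h = β z := by
      intro z
      have hz : z ∈ ((H ⊔ D : Subgroup G) : Set G) := by rw [htop]; trivial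
      rw [Subgroup.mul_normal] at hz
      obtain ⟨h, hh, n, hn, rfl⟩ := hz
      have n1 : α n = 1 := hn.1
      have n2 : β n = 1 := hn.2
      exact ⟨h, hh, by simp [n1], by simp [n2]⟩
    obtain ⟨h1, hh1, e1, e1'⟩ := dec (a⁻¹ * b)
    obtain ⟨h2, hh2, e2, e2'⟩ := dec b⁻¹
    have g1 : Germ (π h1) 1 0 := by
      have := hgerm h1
      rw [e1, e1'] at this
      simpa [hαa, hαb, hβa, hβb] using this
    have g2 : Germ (π h2) 0 1 := by
      have := hgerm h2
      rw [e2, e2'] at this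
      simpa [hαb, hβb] using this
    obtain ⟨⟨T1, hT1⟩, c, hc⟩ := g1
    simp only [Int.cast_zero, add_zero, Int.cast_one] at hT1 hc
    by_cases hunb : ∀ s : ℝ, ∃ h : H, s ≤ π h T1
    · exact bad_of_unbounded (π.comp H.subtype) ⟨h1, hh1⟩ ⟨h2, hh2⟩ hT1 hc g2 hunb
    · push Not at hunb
      obtain ⟨s, hs⟩ := hunb
      let U : Set ℝ := {y | ∀ h ∈ H, π h T1 ≤ y}
      let S : Subgroup G :=
        { carrier := {γ | ∀ y, y ∈ U ↔ π γ y ∈ U}
          one_mem' := by intro y; simp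
          mul_mem' := by
            intro γ δ hγ hδ y
            rw [map_mul, aut_mul, ← hγ, ← hδ]
          inv_mem' := by
            intro γ hγ y
            rw [hγ (π γ⁻¹ y), map_inv, aut_apply_inv] }
      have hHS : H ≤ S := by
        have hfw : ∀ γ ∈ H, ∀ y ∈ U, π γ y ∈ U := by
          intro γ hγ y hy h hh
          have h3 := (π γ).monotone (hy (γ⁻¹ * h) (H.mul_mem (H.inv_mem hγ) hh))
          rwa [map_mul, map_inv, aut_mul, aut_apply_inv] at h3
        intro γ hγ y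
        refine ⟨hfw γ hγ y, fun hy => ?_⟩
        have := hfw γ⁻¹ (H.inv_mem hγ) _ hy
        rwa [map_inv, aut_inv_apply] at this
      have hsU : ∀ y, s ≤ y → y ∈ U := fun y hy h hh => (hs ⟨h, hh⟩).le.trans hy
      have hSne : S ≠ ⊤ := by
        intro hS
        obtain ⟨k, hk⟩ := exists_nat_gt (s - T1)
        have h3 : a ^ k ∈ S := by rw [hS]; trivial
        have h4 := (h3 s).1 (hsU s le_rfl) 1 H.one_mem
        rw [map_pow, ha, TA_pow, map_one] at h4
        have h5 : T1 ≤ s - k := h4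
        linarith
      have hSH : S ≤ H := by
        rcases hHS.eq_or_lt with h | h
        · exact h.ge
        · exact absurd (hH.2 _ h) hSne
      obtain ⟨k, hk⟩ := exists_nat_ge s
      have hx : ∀ j : ℕ, k ≤ j → xs a b (j + 1) ∈ H := by
        intro j hj
        apply hSH
        intro y
        have hj' : (k : ℝ) ≤ j := by exact_mod_cast hj
        rw [map_xs, ha, hb]
        rcases le_total y j with h | h
        · rw [xs_fix j h]
        · have h3 := (xs TA TB (j + 1)).monotone h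
          rw [xs_fix j le_rfl] at h3
          exact iff_of_true (hsU _ (by linarith)) (hsU _ (by linarith))
      exact bad_of_hom H.subtype ⟨_, hx k le_rfl⟩ ⟨_, hx (k + 1) (by omega)⟩ (fpair_shift hp k)

end Pool.Agent.H929Z.ThF
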